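import Pool.Agent.L0h86.GQ.Stm

set_option autoImplicit false

/-!
# Project GQ, module NGAL: the fields `ℚ(i, √D)` are not Galois extensions of `ℚ`
-/

namespace Pool.Agent.L0h19.GQ

open Pool.Agent.Y715.Gi (QB KK GK ev lam)
open Pool.Agent.L0h86.GQ

/-- the elements of an extension generated by a square root -/
theorem two_span {E : Type*} [Field E] [Algebra ℚ E] (K0 : IntermediateField ℚ E) (s : E)
    (hs : s ^ 2 ∈ K0) (T : Set E) (hT : ∀ x ∈ T, x ∈ K0 ∨ x = s) (x : E)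
    (hx : x ∈ IntermediateField.adjoin ℚ T) : ∃ α ∈ K0, ∃ β ∈ K0, x = α + β * s := by
  induction hx using IntermediateField.adjoin_induction with
  | mem x hx =>
    rcases hT x hx with h | h
    · exact ⟨x, h, 0, K0.zero_mem, by ring⟩
    · exact ⟨0, K0.zero_mem, 1, K0.one_mem, by rw [h]; ring⟩
  | algebraMap q => exact ⟨_, K0.algebraMap_mem q, 0, K0.zero_mem, by ring⟩
  | add x y _ _ ihx ihy =>
    obtain ⟨a, ha, b, hb, rfl⟩ := ihx
    obtain ⟨c, hc, d, hd, rfl⟩ := ihy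
    exact ⟨a + c, K0.add_mem ha hc, b + d, K0.add_mem hb hd, by ring⟩
  | inv x _ ih =>
    obtain ⟨a, ha, b, hb, rfl⟩ := ih
    by_cases h0 : a - b * s = 0
    · have h2 : a + b * s = a + a := by linear_combination (-1 : E) * h0
      exact ⟨(a + a)⁻¹, K0.inv_mem (K0.add_mem ha ha), 0, K0.zero_mem, by rw [h2]; ring⟩
    · by_cases h1 : a + b * s = 0
      · exact ⟨0, K0.zero_mem, 0, K0.zero_mem, by rw [h1]; simp⟩
      · have hN : (a + b * s) * (a - b * s) = a ^ 2 - b ^ 2 * s ^ 2 := by ring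
        have hN0 : a ^ 2 - b ^ 2 * s ^ 2 ≠ 0 := hN ▸ mul_ne_zero h1 h0
        have hNm : a ^ 2 - b ^ 2 * s ^ 2 ∈ K0 :=
          K0.sub_mem (K0.toSubfield.pow_mem ha 2) (K0.mul_mem (K0.toSubfield.pow_mem hb 2) hs)
        refine ⟨a * (a ^ 2 - b ^ 2 * s ^ 2)⁻¹, K0.mul_mem ha (K0.inv_mem hNm),
          -b * (a ^ 2 - b ^ 2 * s ^ 2)⁻¹, K0.mul_mem (K0.neg_mem hb) (K0.inv_mem hNm), ?_⟩
        apply inv_eq_of_mul_eq_one_right
        have h3 : (a + b * s) * (a * (a ^ 2 - b ^ 2 * s ^ 2)⁻¹ +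
            -b * (a ^ 2 - b ^ 2 * s ^ 2)⁻¹ * s) =
            (a ^ 2 - b ^ 2 * s ^ 2) * (a ^ 2 - b ^ 2 * s ^ 2)⁻¹ := by ring
        rw [h3, mul_inv_cancel₀ hN0]
  | mul x y _ _ ihx ihy =>
    obtain ⟨a, ha, b, hb, rfl⟩ := ihx
    obtain ⟨c, hc, d, hd, rfl⟩ := ihy
    exact ⟨a * c + b * d * s ^ 2, K0.add_mem (K0.mul_mem ha hc) (K0.mul_mem (K0.mul_mem hb hd) hs),
      a * d + b * c, K0.add_mem (K0.mul_mem ha hd) (K0.mul_mem hb hc), by ring⟩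

theorem lin {i₀ : QB} (hi : i₀ ^ 2 = -1) (p q : ℚ) (h : (p : QB) + q * i₀ = 0) :
    p = 0 ∧ q = 0 := by
  have h1 : (p : QB) ^ 2 + (q : QB) ^ 2 = 0 := by
    have h2 : (p : QB) = -(q * i₀) := by linear_combination h
    rw [h2]
    linear_combination (q : QB) ^ 2 * hi
  have h2 : p ^ 2 + q ^ 2 = 0 := by exact_mod_cast h1
  constructor <;> nlinarith [sq_nonneg p, sq_nonneg q]

theorem coords {i₀ : QB} (hi : i₀ ^ 2 = -1) (z : GaussianInt) (x : QB) (hx : x ∈ KK i₀)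
    (h : x ^ 2 = ev i₀ hi z) : ∃ a b : ℚ, (z.re : ℚ) = a ^ 2 - b ^ 2 ∧ (z.im : ℚ) = 2 * a * b := by
  obtain ⟨a, b, rfl⟩ := Pool.Agent.Y715.Gi.KK_ex hi hx
  rw [Pool.Agent.Y715.Gi.ev_apply] at h
  have h1 := lin hi (a ^ 2 - b ^ 2 - z.re) (2 * a * b - z.im) (by
    push_cast
    linear_combination h - (b : QB) ^ 2 * hi)
  exact ⟨a, b, by linarith [h1.1], by linarith [h1.2]⟩

theorem sqK {i₀ : QB} (hi : i₀ ^ 2 = -1) (z : GaussianInt) (x : QB) (hx : x ∈ KK i₀)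
    (h : x ^ 2 = ev i₀ hi z) : ∃ q : ℚ, (z.norm : ℚ) = q ^ 2 := by
  obtain ⟨a, b, e1, e2⟩ := coords hi z x hx h
  refine ⟨a ^ 2 + b ^ 2, ?_⟩
  rw [Zsqrtd.norm_def]
  push_cast
  rw [e1, e2]
  ring

theorem no_sq (N : ℤ) (hN : N % 8 = 5) (q : ℚ) : (N : ℚ) ≠ q ^ 2 := by
  intro h
  have h1 : IsSquare (N : ℚ) := ⟨q, by rw [h, pow_two]⟩
  rw [Rat.isSquare_intCast_iff] at h1
  obtain ⟨m, hm⟩ := h1
  rw [hm, Int.mul_emod] at hN
  have h2 : m % 8 = 0 ∨ m % 8 = 1 ∨ m % 8 = 2 ∨ m % 8 = 3 ∨ m % 8 = 4 ∨ m % 8 = 5 ∨ m % 8 = 6 ∨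
    m % 8 = 7 := by omega
  rcases h2 with h | h | h | h | h | h | h | h <;> rw [h] at hN <;> norm_num at hN

theorem ev_mem {i₀ : QB} (hi : i₀ ^ 2 = -1) (z : GaussianInt) : ev i₀ hi z ∈ KK i₀ := by
  rw [Pool.Agent.Y715.Gi.ev_apply]
  exact (KK i₀).add_mem (intCast_mem _ _)
    ((KK i₀).mul_mem (intCast_mem _ _) Pool.Agent.Y715.Gi.i₀_mem)

theorem t_NGAL : S_NGAL := by
  intro i₀ s hi D hD hs
  have hsK : s ∉ KK i₀ := by
    intro h
    obtain ⟨q, hq⟩ := sqK hi D s h hs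
    exact no_sq _ hD q hq
  refine ⟨hsK, ?_⟩
  obtain ⟨σ, hσ⟩ := Pool.Agent.Y715.Gi.exists_conj hi
  refine ⟨σ, fun hmem => ?_⟩
  have hsig : (σ s) ^ 2 = ev i₀ hi (star D) := by
    rw [← map_pow, hs, Pool.Agent.Y715.Gi.ev_apply, Pool.Agent.Y715.Gi.ev_apply, map_add, map_mul,
      map_intCast, map_intCast, hσ, Zsqrtd.re_star, Zsqrtd.im_star]
    push_cast
    ring
  have hs2 : s ^ 2 ∈ KK i₀ := by
    rw [hs]
    exact ev_mem hi D
  obtain ⟨α, hα, β, hβ, h⟩ := two_span (KK i₀) s hs2 {i₀, s} (by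
    intro x hx
    rcases hx with h | h
    · left
      rw [h]
      exact Pool.Agent.Y715.Gi.i₀_mem
    · right
      exact h) (σ s) hmem
  by_cases h0 : α * β = 0
  · rcases mul_eq_zero.1 h0 with h1 | h1
    · have h2 : (β * ev i₀ hi D) ^ 2 = ev i₀ hi ((D.norm : ℤ) : GaussianInt) := by
        rw [Zsqrtd.norm_eq_mul_conj, map_mul, ← hsig, h, h1, ← hs]
        ring
      obtain ⟨a, b, e1, e2⟩ := coords hi _ _ ((KK i₀).mul_mem hβ (ev_mem hi D)) h2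
      rw [Zsqrtd.re_intCast] at e1
      rw [Zsqrtd.im_intCast] at e2
      have hab : a * b = 0 := by
        push_cast at e2
        linarith
      have hpos : (0 : ℚ) ≤ (D.norm : ℚ) := by exact_mod_cast GaussianInt.norm_nonneg D
      rcases mul_eq_zero.1 hab with h3 | h3
      · rw [h3] at e1
        have h4 : (D.norm : ℚ) = 0 := by nlinarith [sq_nonneg b]
        have h5 : D.norm = 0 := by exact_mod_cast h4
        rw [h5] at hD
        norm_num at hD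
      · rw [h3] at e1
        exact no_sq _ hD a (by rw [e1]; ring)
    · have h2 : σ s ∈ KK i₀ := by
        rw [h, h1, zero_mul, add_zero]
        exact hα
      obtain ⟨q, hq⟩ := sqK hi (star D) (σ s) h2 hsig
      rw [Zsqrtd.norm_conj] at hq
      exact no_sq _ hD q hq
  · apply hsK
    have h1 : s = ((σ s) ^ 2 - α ^ 2 - β ^ 2 * s ^ 2) * (α * β + α * β)⁻¹ := by
      have h3 : (σ s) ^ 2 - α ^ 2 - β ^ 2 * s ^ 2 = s * (α * β + α * β) := by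
        rw [h]
        ring
      rw [h3, mul_assoc, mul_inv_cancel₀, mul_one]
      rw [← two_mul]
      exact mul_ne_zero two_ne_zero h0
    rw [h1]
    have hα2 : α ^ 2 ∈ KK i₀ := (KK i₀).toSubfield.pow_mem hα 2
    have hβ2 : β ^ 2 ∈ KK i₀ := (KK i₀).toSubfield.pow_mem hβ 2
    have hσ2 : (σ s) ^ 2 ∈ KK i₀ := by
      rw [hsig]
      exact ev_mem hi _
    exact (KK i₀).mul_mem ((KK i₀).sub_mem ((KK i₀).sub_mem hσ2 hα2) ((KK i₀).mul_mem hβ2 hs2))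
      ((KK i₀).inv_mem ((KK i₀).add_mem ((KK i₀).mul_mem hα hβ) ((KK i₀).mul_mem hα hβ)))

end Pool.Agent.L0h19.GQ
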